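import Pool.Agent.MTO.Stmts
import Pool.Agent.Helper24_MTF.Irr
import Pool.Agent.Helper3_MTF.Spl

/-!
# Squad MTO, row IRE: three orthogonal vectors
-/

set_option autoImplicit false

namespace Pool.Agent.MTO.H67

open Matrix Pool.Agent.MTF Pool.Agent.MTF.H24 Pool.Agent.MTF.H3

variable {d : Type} [Fintype d] [DecidableEq d]

/-! ### Linear algebra -/

/-- the complex conjugate of a subspace -/
def cjU (U : Submodule ℂ (d → ℂ)) : Submodule ℂ (d → ℂ) where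
  carrier := {x | star x ∈ U}
  zero_mem' := by
    change star (0 : d → ℂ) ∈ U
    rw [star_zero]
    exact U.zero_mem
  add_mem' := by
    intro a b ha hb
    change star (a + b) ∈ U
    rw [star_add]
    exact U.add_mem ha hb
  smul_mem' := by
    intro c a ha
    change star (c • a) ∈ U
    rw [star_smul]
    exact U.smul_mem _ ha

omit [DecidableEq d] in
theorem cj_finrank (U : Submodule ℂ (d → ℂ)) :
    Module.finrank ℂ U ≤ Module.finrank ℂ (cjU U) := by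
  obtain ⟨b, hb⟩ : ∃ b : Fin (Module.finrank ℂ U) → U, LinearIndependent ℂ b :=
    ⟨_, (Module.finBasis ℂ U).linearIndependent⟩
  have hmem : ∀ i, star (b i : d → ℂ) ∈ cjU U := by
    intro i
    change star (star (b i : d → ℂ)) ∈ U
    rw [star_star]
    exact (b i).2
  have hli : LinearIndependent ℂ (fun i => (⟨star (b i : d → ℂ), hmem i⟩ : cjU U)) := by
    rw [Fintype.linearIndependent_iff]
    intro c hc i
    have h1 : ∑ j, star (c j) • b j = 0 := by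
      apply Subtype.ext
      have h2 := congrArg (fun z : cjU U => star (z : d → ℂ)) hc
      simp only [Submodule.coe_sum, Submodule.coe_smul, star_sum, star_smul, star_star,
        Submodule.coe_zero, star_zero] at h2
      rw [Submodule.coe_sum, Submodule.coe_zero, ← h2]
      rfl
    have h3 := Fintype.linearIndependent_iff.1 hb _ h1 i
    exact star_eq_zero.1 h3
  have h4 := hli.fintype_card_le_finrank
  rwa [Fintype.card_fin] at h4

omit [Fintype d] [DecidableEq d] in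
/-- a vector of degree outside of `S` in the sum over `S` vanishes -/
theorem zero_of_mem {V : ℕ → Submodule ℂ (d → ℂ)} (hi : iSupIndep V) {S : Set ℕ} {q : ℕ}
    (hq : q ∉ S) {x : d → ℂ} (hx : x ∈ V q) (hx' : x ∈ ⨆ p ∈ S, V p) : x = 0 := by
  have h1 := hi q
  rw [Submodule.disjoint_def] at h1
  refine h1 x hx ?_
  refine (iSup₂_mono' (f := fun p (_ : p ∈ S) => V p) ?_) hx'
  intro p hp
  exact ⟨p, fun h => hq (h ▸ hp), le_rfl⟩

theorem exists_pr {w : ℕ} {V : ℕ → Submodule ℂ (d → ℂ)} (htop : ∀ p, w < p → V p = ⊥)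
    (hi : iSupIndep V) (hs : ⨆ p, V p = ⊤) : ∃ π, Pr V w π := by
  choose π h1 h2 h3 using exists_proj hi hs
  refine ⟨π, h1, h2, h3, fun x => ?_⟩
  have hx : x ∈ ⨆ p, V p := by
    rw [hs]
    trivial
  induction hx using Submodule.iSup_induction' with
  | mem p x hx =>
    by_cases hp : p ≤ w
    · rw [Finset.sum_eq_single p, h2 p x hx]
      · intro q _ hq
        exact h3 q p (Ne.symm hq) x hx
      · intro h
        exact absurd (Finset.mem_range.2 (by omega)) h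
    · rw [htop p (by omega), Submodule.mem_bot] at hx
      rw [hx]
      simp
  | zero => simp
  | add x y _ _ hx hy => simp only [map_add, Finset.sum_add_distrib, hx, hy]

/-! ### The three vectors -/

omit [DecidableEq d] in
theorem tri {Ψ : Matrix d d ℂ} {g : Submodule ℂ (Matrix d d ℂ)}
    (w5 : ∀ a b : d → ℂ, wd Ψ b a = -wd Ψ a b)
    (w9 : ∀ x y : d → ℂ, x ⬝ᵥ (Ψ *ᵥ y) = y ⬝ᵥ (Ψ *ᵥ x)) (x0 x1 x2 : d → ℂ)
    (o01 : x0 ⬝ᵥ (Ψ *ᵥ x1) = 0) (o02 : x0 ⬝ᵥ (Ψ *ᵥ x2) = 0) (o12 : x1 ⬝ᵥ (Ψ *ᵥ x2) = 0)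
    (n0 : x0 ⬝ᵥ (Ψ *ᵥ x0) ≠ 0) (n1 : x1 ⬝ᵥ (Ψ *ᵥ x1) ≠ 0) (n2 : x2 ⬝ᵥ (Ψ *ᵥ x2) ≠ 0)
    (m01 : wd Ψ x0 x1 ∈ g) (m02 : wd Ψ x0 x2 ∈ g) (m12 : wd Ψ x1 x2 ∈ g) :
    ∃ x : Fin 3 → d → ℂ, (∀ i j, i ≠ j → x i ⬝ᵥ (Ψ *ᵥ x j) = 0) ∧
      (∀ i, x i ⬝ᵥ (Ψ *ᵥ x i) ≠ 0) ∧ ∀ i j, wd Ψ (x i) (x j) ∈ g := by
  have hz : ∀ a : d → ℂ, wd Ψ a a ∈ g := by
    intro a
    have h1 : wd Ψ a a = 0 := by
      unfold wd
      exact sub_self _
    rw [h1]
    exact g.zero_mem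
  have m10 : wd Ψ x1 x0 ∈ g := by
    rw [w5 x0 x1]
    exact g.neg_mem m01
  have m20 : wd Ψ x2 x0 ∈ g := by
    rw [w5 x0 x2]
    exact g.neg_mem m02
  have m21 : wd Ψ x2 x1 ∈ g := by
    rw [w5 x1 x2]
    exact g.neg_mem m12
  have o10 : x1 ⬝ᵥ (Ψ *ᵥ x0) = 0 := by
    rw [w9]
    exact o01
  have o20 : x2 ⬝ᵥ (Ψ *ᵥ x0) = 0 := by
    rw [w9]
    exact o02
  have o21 : x2 ⬝ᵥ (Ψ *ᵥ x1) = 0 := by
    rw [w9]
    exact o12
  refine ⟨![x0, x1, x2], ?_, ?_, ?_⟩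
  · intro i j hij
    fin_cases i <;> fin_cases j
    · exact absurd rfl hij
    · exact o01
    · exact o02
    · exact o10
    · exact absurd rfl hij
    · exact o12
    · exact o20
    · exact o21
    · exact absurd rfl hij
  · intro i
    fin_cases i
    · exact n0
    · exact n1
    · exact n2
  · intro i j
    fin_cases i <;> fin_cases j
    · exact hz x0
    · exact m01
    · exact m02
    · exact m10
    · exact hz x1
    · exact m12
    · exact m20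
    · exact m21
    · exact hz x2

theorem final {Ψ : Matrix d d ℂ} {g : Submodule ℂ (Matrix d d ℂ)}
    (w1 : ∀ a b x : d → ℂ, wd Ψ a b *ᵥ x = (b ⬝ᵥ (Ψ *ᵥ x)) • a - (a ⬝ᵥ (Ψ *ᵥ x)) • b)
    (w2 : ∀ a b : d → ℂ, wd Ψ a b ∈ sk Ψ)
    (w3 : ∀ (X : Matrix d d ℂ), X ∈ sk Ψ → ∀ a b : d → ℂ,
      X * wd Ψ a b - wd Ψ a b * X = wd Ψ (X *ᵥ a) b + wd Ψ a (X *ᵥ b))
    (w5 : ∀ a b : d → ℂ, wd Ψ b a = -wd Ψ a b)
    (w6 : ∀ a a' b : d → ℂ, wd Ψ (a + a') b = wd Ψ a b + wd Ψ a' b)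
    (w7 : ∀ (t : ℂ) (a b : d → ℂ), wd Ψ (t • a) b = t • wd Ψ a b)
    (w9 : ∀ x y : d → ℂ, x ⬝ᵥ (Ψ *ᵥ y) = y ⬝ᵥ (Ψ *ᵥ x))
    (w6' : ∀ a b b' : d → ℂ, wd Ψ a (b + b') = wd Ψ a b + wd Ψ a b')
    (w7' : ∀ (t : ℂ) (a b : d → ℂ), wd Ψ a (t • b) = t • wd Ψ a b)
    (hbr : ∀ X ∈ g, ∀ Y ∈ g, X * Y - Y * X ∈ g) (u u' v v' : d → ℂ)
    (huu : u ⬝ᵥ (Ψ *ᵥ u) = 0) (hu'u' : u' ⬝ᵥ (Ψ *ᵥ u') = 0) (huv : u ⬝ᵥ (Ψ *ᵥ v) = 0)
    (huv' : u ⬝ᵥ (Ψ *ᵥ v') = 0) (hu'v : u' ⬝ᵥ (Ψ *ᵥ v) = 0) (hu'v' : u' ⬝ᵥ (Ψ *ᵥ v') = 0)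
    (h1 : wd Ψ u v ∈ g) (h2 : wd Ψ u v' ∈ g) (h3 : wd Ψ u' v ∈ g) (h4 : wd Ψ u' v' ∈ g)
    (hα : u ⬝ᵥ (Ψ *ᵥ u') ≠ 0) (hβ : v ⬝ᵥ (Ψ *ᵥ v') ≠ 0) :
    ∃ x : Fin 3 → d → ℂ, (∀ i j, i ≠ j → x i ⬝ᵥ (Ψ *ᵥ x j) = 0) ∧
      (∀ i, x i ⬝ᵥ (Ψ *ᵥ x i) ≠ 0) ∧ ∀ i j, wd Ψ (x i) (x j) ∈ g := by
  obtain ⟨α, hα'⟩ : ∃ α, α = u ⬝ᵥ (Ψ *ᵥ u') := ⟨_, rfl⟩
  obtain ⟨β, hβ'⟩ : ∃ β, β = v ⬝ᵥ (Ψ *ᵥ v') := ⟨_, rfl⟩
  have e1 : wd Ψ u v * wd Ψ u' v' - wd Ψ u' v' * wd Ψ u v =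
      -α • wd Ψ v v' + β • wd Ψ u' u := by
    rw [w3 _ (w2 u v), w1, w1, w9 v u', hu'v, huv', ← hα', ← hβ', zero_smul, zero_smul, zero_sub,
      sub_zero, ← neg_smul, w7, w7']
  have e2 : wd Ψ u v' * wd Ψ u' v - wd Ψ u' v * wd Ψ u v' =
      α • wd Ψ v v' + β • wd Ψ u' u := by
    rw [w3 _ (w2 u v'), w1, w1, w9 v' u', hu'v', huv, w9 v' v, ← hα', ← hβ', zero_smul,
      zero_smul, zero_sub, sub_zero, ← neg_smul, w7, w7', w5 v v', smul_neg, neg_smul, neg_neg]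
  have e3 : wd Ψ u' u ∈ g := by
    have h5 := g.add_mem (hbr _ h1 _ h4) (hbr _ h2 _ h3)
    rw [e1, e2] at h5
    have h6 : -α • wd Ψ v v' + β • wd Ψ u' u + (α • wd Ψ v v' + β • wd Ψ u' u) =
        (2 * β) • wd Ψ u' u := by
      rw [two_mul, add_smul, neg_smul]
      abel
    rw [h6] at h5
    rw [← hβ'] at hβ
    exact (g.smul_mem_iff (mul_ne_zero two_ne_zero hβ)).1 h5
  have w6s : ∀ a a' b : d → ℂ, wd Ψ (a - a') b = wd Ψ a b - wd Ψ a' b := by
    intro a a' b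
    have h5 := w6 a ((-1 : ℂ) • a') b
    rw [w7, neg_smul, one_smul, neg_smul, one_smul, ← sub_eq_add_neg, ← sub_eq_add_neg] at h5
    exact h5
  have w6s' : ∀ a b b' : d → ℂ, wd Ψ a (b - b') = wd Ψ a b - wd Ψ a b' := by
    intro a b b'
    have h5 := w6' a b ((-1 : ℂ) • b')
    rw [w7', neg_smul, one_smul, neg_smul, one_smul, ← sub_eq_add_neg, ← sub_eq_add_neg] at h5
    exact h5
  have hz : ∀ a : d → ℂ, wd Ψ a a = 0 := by
    intro a
    unfold wd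
    exact sub_self _
  have e4 : wd Ψ (u + u') (u - u') ∈ g := by
    rw [w6, w6s', w6s', hz, hz, zero_sub, sub_zero, w5 u' u, neg_neg]
    exact g.add_mem e3 e3
  have f0 : (u + u') ⬝ᵥ (Ψ *ᵥ (u + u')) = 2 * α := by
    rw [mulVec_add, dotProduct_add, add_dotProduct, add_dotProduct, huu, hu'u', w9 u' u, ← hα']
    ring
  have f1 : (u - u') ⬝ᵥ (Ψ *ᵥ (u - u')) = -(2 * α) := by
    rw [mulVec_sub, dotProduct_sub, sub_dotProduct, sub_dotProduct, huu, hu'u', w9 u' u, ← hα']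
    ring
  have f01 : (u + u') ⬝ᵥ (Ψ *ᵥ (u - u')) = 0 := by
    rw [mulVec_sub, dotProduct_sub, add_dotProduct, add_dotProduct, huu, hu'u', w9 u' u]
    ring
  have hn0 : (u + u') ⬝ᵥ (Ψ *ᵥ (u + u')) ≠ 0 := by
    rw [f0, hα']
    exact mul_ne_zero two_ne_zero hα
  have hn1 : (u - u') ⬝ᵥ (Ψ *ᵥ (u - u')) ≠ 0 := by
    rw [f1, hα']
    exact neg_ne_zero.2 (mul_ne_zero two_ne_zero hα)
  by_cases hc : (v + v') ⬝ᵥ (Ψ *ᵥ (v + v')) = 0
  · have hn2 : (v - v') ⬝ᵥ (Ψ *ᵥ (v - v')) ≠ 0 := by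
      intro hc'
      apply hβ
      rw [mulVec_add, dotProduct_add, add_dotProduct, add_dotProduct, w9 v' v] at hc
      rw [mulVec_sub, dotProduct_sub, sub_dotProduct, sub_dotProduct, w9 v' v] at hc'
      have h5 : (4 : ℂ) * (v ⬝ᵥ (Ψ *ᵥ v')) = 0 := by linear_combination hc - hc'
      exact (mul_eq_zero.1 h5).resolve_left (by norm_num)
    refine tri w5 w9 (u + u') (u - u') (v - v') f01 ?_ ?_ hn0 hn1 hn2 e4 ?_ ?_
    · rw [mulVec_sub, dotProduct_sub, add_dotProduct, add_dotProduct, huv, huv', hu'v, hu'v']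
      ring
    · rw [mulVec_sub, dotProduct_sub, sub_dotProduct, sub_dotProduct, huv, huv', hu'v, hu'v']
      ring
    · rw [w6, w6s', w6s']
      exact g.add_mem (g.sub_mem h1 h2) (g.sub_mem h3 h4)
    · rw [w6s, w6s', w6s']
      exact g.sub_mem (g.sub_mem h1 h2) (g.sub_mem h3 h4)
  · refine tri w5 w9 (u + u') (u - u') (v + v') f01 ?_ ?_ hn0 hn1 hc e4 ?_ ?_
    · rw [mulVec_add, dotProduct_add, add_dotProduct, add_dotProduct, huv, huv', hu'v, hu'v']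
      ring
    · rw [mulVec_add, dotProduct_add, sub_dotProduct, sub_dotProduct, huv, huv', hu'v, hu'v']
      ring
    · rw [w6, w6', w6']
      exact g.add_mem (g.add_mem h1 h2) (g.add_mem h3 h4)
    · rw [w6s, w6', w6']
      exact g.sub_mem (g.add_mem h1 h2) (g.add_mem h3 h4)

/-! ### The theorem -/

theorem ire (hWed : WedStmt) : IreStmt := by
  intro d _ _ w Ψ V g hL κ m hκ hm hdep
  obtain ⟨w1, w2, w3, -, w5, w6, w7, w8', w9⟩ := hWed d Ψ hL.symm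
  have w8 := w8' hL.real
  have w6' : ∀ a b b' : d → ℂ, wd Ψ a (b + b') = wd Ψ a b + wd Ψ a b' := by
    intro a b b'
    rw [w5 (b + b') a, w6, w5 b a, w5 b' a, neg_add]
  have w7' : ∀ (t : ℂ) (a b : d → ℂ), wd Ψ a (t • b) = t • wd Ψ a b := by
    intro t a b
    rw [w5 (t • b) a, w7, w5 b a, smul_neg]
  -- the lowest piece
  have hex : ∃ p, V p ≠ ⊥ := by
    by_contra hcon
    push Not at hcon
    have h1 : (⊤ : Submodule ℂ (d → ℂ)) = ⊥ := by
      rw [← hL.span]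
      simp [hcon]
    have h2 := congrArg (fun W : Submodule ℂ (d → ℂ) => Module.finrank ℂ W) h1
    simp only [finrank_top, finrank_bot, Module.finrank_fintype_fun_eq_card] at h2
    omega
  classical
  obtain ⟨p₀, hp₀, hmin⟩ : ∃ p, V p ≠ ⊥ ∧ ∀ q < p, V q = ⊥ :=
    ⟨Nat.find hex, Nat.find_spec hex, fun q hq => by
      by_contra h
      exact Nat.find_min hex hq h⟩
  have hpw : p₀ ≤ w := by
    by_contra h
    exact hp₀ (hL.top p₀ (by omega))
  have hhigh : ∀ p, w - p₀ < p → V p = ⊥ := by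
    intro p hp
    by_cases hw : w < p
    · exact hL.top p hw
    · rw [Submodule.eq_bot_iff]
      intro x hx
      have h1 := hL.conj p (by omega) x hx
      rw [hmin (w - p) (by omega), Submodule.mem_bot] at h1
      exact star_eq_zero.1 h1
  obtain ⟨u, hu, hu0⟩ := Submodule.exists_mem_ne_zero_of_ne_bot hp₀
  -- the middle
  obtain ⟨M, hM⟩ : ∃ M : Submodule ℂ (d → ℂ), M = ⨆ q ∈ Set.Ioo p₀ (w - p₀), V q := ⟨_, rfl⟩
  have hMle : ∀ q, p₀ < q → q < w - p₀ → V q ≤ M := by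
    intro q h1 h2
    rw [hM]
    exact le_iSup₂_of_le (f := fun q (_ : q ∈ Set.Ioo p₀ (w - p₀)) => V q) q ⟨h1, h2⟩ le_rfl
  have hMind : ∀ P : (d → ℂ) → Prop, (∀ q, p₀ < q → q < w - p₀ → ∀ y ∈ V q, P y) → P 0 →
      (∀ y z, P y → P z → P (y + z)) → ∀ y ∈ M, P y := by
    intro P hP h0 hadd y hy
    rw [hM] at hy
    refine Submodule.iSup_induction (fun q => ⨆ _ : q ∈ Set.Ioo p₀ (w - p₀), V q)
      (motive := P) hy ?_ h0 hadd
    intro q y hy
    by_cases hq : q ∈ Set.Ioo p₀ (w - p₀)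
    · rw [iSup_pos hq] at hy
      exact hP q hq.1 hq.2 y hy
    · rw [iSup_neg hq, Submodule.mem_bot] at hy
      rw [hy]
      exact h0
  have hMtop : M ⊔ (V p₀ ⊔ V (w - p₀)) = ⊤ := by
    rw [eq_top_iff, ← hL.span]
    refine iSup_le fun p => ?_
    rcases lt_trichotomy p p₀ with h | h | h
    · rw [hmin p h]
      exact bot_le
    · rw [h]
      exact le_sup_of_le_right le_sup_left
    · rcases lt_trichotomy p (w - p₀) with h' | h' | h'
      · exact le_sup_of_le_left (hMle p h h')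
      · rw [h']
        exact le_sup_of_le_right le_sup_right
      · rw [hhigh p h']
        exact bot_le
  have hdim : 2 * m + 1 ≤ Module.finrank ℂ M := by
    have h1 := Submodule.finrank_add_le_finrank_add_finrank M (V p₀ ⊔ V (w - p₀))
    rw [hMtop, finrank_top, Module.finrank_fintype_fun_eq_card] at h1
    have h2 := hκ p₀ hpw
    omega
  have hMstar : ∀ x ∈ M, star x ∈ M := by
    refine hMind _ ?_ ?_ ?_
    · intro q h1 h2 y hy
      exact hMle (w - q) (by omega) (by omega) (hL.conj q (by omega) y hy)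
    · rw [star_zero]
      exact M.zero_mem
    · intro y z hy hz
      rw [star_add]
      exact M.add_mem hy hz
  have horth : ∀ p, (∀ q, p₀ < q → q < w - p₀ → q + p ≠ w) → ∀ x ∈ V p, ∀ y ∈ M,
      y ⬝ᵥ (Ψ *ᵥ x) = 0 := by
    intro p hp x hx
    refine hMind _ ?_ ?_ ?_
    · intro q h1 h2 y hy
      exact hL.orth q p (hp q h1 h2) y hy x hx
    · exact zero_dotProduct _
    · intro y z hy hz
      rw [add_dotProduct, hy, hz, add_zero]
  obtain ⟨H, hHg, hH⟩ := hL.hh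
  have hDS : ∀ v ∈ M, DS V Set.Iio (wd Ψ u v) := by
    intro v hv p x hx
    rw [w1]
    refine Submodule.sub_mem _ ?_ ?_
    · by_cases hp : p ≤ p₀
      · rw [horth p (fun q h1 h2 h3 => by omega) x hx v hv, zero_smul]
        exact Submodule.zero_mem _
      · refine Submodule.smul_mem _ _ ?_
        exact (le_iSup₂_of_le (f := fun q (_ : q ∈ Set.Iio p) => V q) p₀
          (Set.mem_Iio.2 (by omega)) le_rfl) hu
    · by_cases hp : p₀ + p = w
      · refine Submodule.smul_mem _ _ ?_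
        refine hMind (fun v => v ∈ ⨆ p' ∈ Set.Iio p, V p') ?_ ?_ ?_ v hv
        · intro q h1 h2 y hy
          exact (le_iSup₂_of_le (f := fun q (_ : q ∈ Set.Iio p) => V q) q
            (Set.mem_Iio.2 (by omega)) le_rfl) hy
        · exact Submodule.zero_mem _
        · intro y z hy hz
          exact Submodule.add_mem _ hy hz
      · rw [hL.orth p₀ p hp u hu x hx, zero_smul]
        exact Submodule.zero_mem _
  have hneg : ∀ v ∈ M, wd Ψ u v ∈ g ⊔ F0 V → wd Ψ u v ∈ g := by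
    intro v hv hmem
    refine neg_mem (w := w) hH hL.top hL.span ?_ (hDS v hv) hmem
    intro X hX
    exact hL.br H hHg X hX
  -- the space of the `v`
  obtain ⟨L, hLw⟩ : ∃ L : (d → ℂ) →ₗ[ℂ] Matrix d d ℂ, ∀ v, L v = wd Ψ u v :=
    ⟨{ toFun := fun v => wd Ψ u v
       map_add' := fun a b => w6' u a b
       map_smul' := fun t a => w7' t u a }, fun _ => rfl⟩
  obtain ⟨W, hW⟩ : ∃ W : Submodule ℂ (d → ℂ), ∀ v, v ∈ W ↔ v ∈ M ∧ wd Ψ u v ∈ g :=
    ⟨M ⊓ g.comap L, fun v => by rw [Submodule.mem_inf, Submodule.mem_comap, hLw]⟩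
  have hWM : W ≤ M := fun v hv => ((hW v).1 hv).1
  have hcodim : Module.finrank ℂ M ≤ Module.finrank ℂ W + m := by
    by_contra hcon
    obtain ⟨C, hC⟩ := Submodule.exists_isCompl W
    obtain ⟨D, hD⟩ : ∃ D : Submodule ℂ (d → ℂ), D = C ⊓ M := ⟨_, rfl⟩
    have hWD : W ⊔ D = M := by
      rw [hD, ← sup_inf_assoc_of_le C hWM, hC.sup_eq_top, top_inf_eq]
    have hDM : D ≤ M := by
      rw [hD]
      exact inf_le_right
    have hDC : D ≤ C := by
      rw [hD]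
      exact inf_le_left
    have h1 := Submodule.finrank_add_le_finrank_add_finrank W D
    rw [hWD] at h1
    have h3 : m + 1 ≤ Module.finrank ℂ D := by omega
    obtain ⟨y, hy⟩ := exists_linearIndependent_of_le_finrank h3
    obtain ⟨l, hl, hmem⟩ := hdep (fun j => wd Ψ u (y j : d → ℂ)) (fun j => w2 _ _)
    obtain ⟨z, hz⟩ : ∃ z : d → ℂ, z = ∑ j, l j • (y j : d → ℂ) := ⟨_, rfl⟩
    have h4 : ∑ j, l j • wd Ψ u (y j : d → ℂ) = wd Ψ u z := by
      rw [← hLw, hz, map_sum]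
      refine Finset.sum_congr rfl fun j _ => ?_
      rw [map_smul, hLw]
    rw [h4] at hmem
    have hzD : z ∈ D := by
      rw [hz]
      exact Submodule.sum_mem _ fun j _ => Submodule.smul_mem _ _ (y j).2
    have h5 := hneg _ (hDM hzD) hmem
    have h6 : z ∈ W := (hW _).2 ⟨hDM hzD, h5⟩
    have h7 : z = 0 := (Submodule.disjoint_def.1 hC.disjoint) _ h6 (hDC hzD)
    apply hl
    have h8 : ∑ j, l j • y j = 0 := by
      apply Subtype.ext
      rw [Submodule.coe_sum]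
      simpa [hz] using h7
    exact funext (Fintype.linearIndependent_iff.1 hy l h8)
  -- the intersection with the conjugate
  have hcW : cjU W ≤ M := by
    intro x hx
    have h1 : star x ∈ W := hx
    have h2 := hMstar _ (hWM h1)
    rwa [star_star] at h2
  have hne : W ⊓ cjU W ≠ ⊥ := by
    intro h0
    have h1 := Submodule.finrank_sup_add_finrank_inf_eq W (cjU W)
    have h2 : Module.finrank ℂ ↥(W ⊔ cjU W) ≤ Module.finrank ℂ M :=
      Submodule.finrank_mono (sup_le hWM hcW)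
    have h3 := cj_finrank W
    rw [h0, finrank_bot] at h1
    omega
  obtain ⟨x, hx, hx0⟩ := Submodule.exists_mem_ne_zero_of_ne_bot hne
  -- stability under `H`
  have hHM : ∀ y ∈ M, H *ᵥ y ∈ M := by
    refine hMind _ ?_ ?_ ?_
    · intro q h1 h2 y hy
      rw [hH q y hy]
      exact M.smul_mem _ (hMle q h1 h2 hy)
    · rw [mulVec_zero]
      exact M.zero_mem
    · intro y z hy hz
      rw [mulVec_add]
      exact M.add_mem hy hz
  have hHW : ∀ y ∈ W, H *ᵥ y ∈ W := by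
    intro y hy
    obtain ⟨hy1, hy2⟩ := (hW y).1 hy
    refine (hW _).2 ⟨hHM y hy1, ?_⟩
    have h1 := w3 H (hL.le hHg) u y
    rw [hH p₀ u hu, w7] at h1
    have h2 : wd Ψ u (H *ᵥ y) = (H * wd Ψ u y - wd Ψ u y * H) -
        ((p₀ : ℂ) - w / 2) • wd Ψ u y := by
      rw [h1]
      abel
    rw [h2]
    exact g.sub_mem (hL.br H hHg _ hy2) (g.smul_mem _ hy2)
  have hHstar : ∀ y : d → ℂ, star (H *ᵥ y) = -(H *ᵥ star y) := by
    intro y
    have hy : y ∈ ⨆ p, V p := by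
      rw [hL.span]
      exact Submodule.mem_top
    refine Submodule.iSup_induction V
      (motive := fun y => star (H *ᵥ y) = -(H *ᵥ star y)) hy ?_ ?_ ?_
    · intro q y hy
      by_cases hq : q ≤ w
      · rw [hH q y hy, hH (w - q) _ (hL.conj q hq y hy), star_smul, ← neg_smul]
        congr 1
        push_cast [hq]
        simp only [star_sub, star_div₀, star_natCast, star_ofNat]
        ring
      · rw [hL.top q (by omega), Submodule.mem_bot] at hy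
        rw [hy]
        simp
    · simp
    · intro y z hy hz
      rw [mulVec_add, star_add, star_add, mulVec_add, hy, hz, neg_add]
  have hHI : ∀ y ∈ W ⊓ cjU W, H *ᵥ y ∈ W ⊓ cjU W := by
    intro y hy
    refine ⟨hHW y hy.1, ?_⟩
    change star (H *ᵥ y) ∈ W
    rw [hHstar]
    exact W.neg_mem (hHW _ hy.2)
  -- a homogeneous vector
  obtain ⟨π, hπ⟩ := exists_pr hL.top hL.indep hL.span
  have hgr := graded_aux (w := w) hH hHI (Finset.range (w + 1)) (fun q => π q x)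
    (fun q _ => hπ.mem q x) (by rw [hπ.sum x]; exact hx)
  obtain ⟨q, hq, hqx⟩ : ∃ q ∈ Finset.range (w + 1), π q x ≠ 0 := by
    by_contra hcon
    push Not at hcon
    apply hx0
    rw [← hπ.sum x]
    exact Finset.sum_eq_zero hcon
  obtain ⟨v, hv⟩ : ∃ v, v = π q x := ⟨_, rfl⟩
  have hvI := hgr q hq
  rw [← hv] at hvI hqx
  have hvq : v ∈ V q := by
    rw [hv]
    exact hπ.mem q x
  have hqI : q ∈ Set.Ioo p₀ (w - p₀) := by
    by_contra hcon
    apply hqx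
    refine zero_of_mem hL.indep hcon hvq ?_
    rw [← hM]
    exact hWM hvI.1
  obtain ⟨hq1, hq2⟩ := hqI
  have g1 : wd Ψ u v ∈ g := ((hW v).1 hvI.1).2
  have g2 : wd Ψ u (star v) ∈ g := ((hW _).1 hvI.2).2
  have g3 : wd Ψ (star u) v ∈ g := by
    have h1 := hL.cj _ g2
    rwa [w8, star_star] at h1
  have g4 : wd Ψ (star u) (star v) ∈ g := by
    have h1 := hL.cj _ g1
    rwa [w8] at h1
  have hu' := hL.conj p₀ hpw u hu
  have hv' := hL.conj q (by omega) v hvq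
  have hposne : ∀ p ≤ w, ∀ y ∈ V p, y ≠ 0 → y ⬝ᵥ (Ψ *ᵥ star y) ≠ 0 := by
    intro p hp y hy hy0 h1
    obtain ⟨t, ht, hpos⟩ := hL.pos p hp y hy hy0
    rw [h1, mul_zero] at hpos
    have h2 : (t : ℂ) = 0 := hpos.symm
    exact ht.ne' (by exact_mod_cast h2)
  exact final w1 w2 w3 w5 w6 w7 w9 w6' w7' hL.br u (star u) v (star v)
    (hL.orth p₀ p₀ (by omega) u hu u hu)
    (hL.orth (w - p₀) (w - p₀) (by omega) _ hu' _ hu')
    (hL.orth p₀ q (by omega) u hu v hvq)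
    (hL.orth p₀ (w - q) (by omega) u hu _ hv')
    (hL.orth (w - p₀) q (by omega) _ hu' v hvq)
    (hL.orth (w - p₀) (w - q) (by omega) _ hu' _ hv')
    g1 g2 g3 g4 (hposne p₀ hpw u hu hu0) (hposne q (by omega) v hvq hqx)

end Pool.Agent.MTO.H67
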